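import Pool.Agent.Y214.CY.Stm

/-!
# Coray's local theorem for tensors
-/

set_option autoImplicit false

namespace Pool.Agent.Y214.CY

open Module

theorem cub_smul {ι R A : Type} [Fintype ι] [CommRing R] [CommRing A] [Algebra R A]
    (t : ι → ι → ι → R) (s : A) (y : ι → A) : cub t (fun i => s * y i) = s ^ 3 * cub t y := by
  simp only [cub, Finset.mul_sum]
  refine Finset.sum_congr rfl fun i _ => Finset.sum_congr rfl fun j _ =>
    Finset.sum_congr rfl fun l _ => ?_
  ring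

/-- The tensor in another basis. -/
def tens {n : ℕ} {R : Type} [CommRing R] (t : Fin n → Fin n → Fin n → R)
    (e : Fin n → Fin n → R) : Fin n → Fin n → Fin n → R :=
  fun a b c => ∑ i, ∑ j, ∑ l, t i j l * e a i * e b j * e c l

theorem cub_tens {n : ℕ} {R A : Type} [CommRing R] [CommRing A] [Algebra R A]
    (t : Fin n → Fin n → Fin n → R) (e : Fin n → Fin n → R) (y : Fin n → A) :
    cub (tens t e) y = cub t (fun i => ∑ a, y a * algebraMap R A (e a i)) := by
  have h1 : ∀ i j l, algebraMap R A (t i j l) * (∑ a, y a * algebraMap R A (e a i)) *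
      (∑ b, y b * algebraMap R A (e b j)) * (∑ c, y c * algebraMap R A (e c l)) =
      ∑ a, ∑ b, ∑ c, algebraMap R A (t i j l * e a i * e b j * e c l) * y a * y b * y c := by
    intro i j l
    have h2 : ∀ a b c : Fin n, algebraMap R A (t i j l * e a i * e b j * e c l) * y a * y b * y c =
        algebraMap R A (t i j l) * (y a * algebraMap R A (e a i)) * (y b * algebraMap R A (e b j)) *
          (y c * algebraMap R A (e c l)) := by
      intro a b c
      simp only [map_mul]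
      ring
    simp only [h2, ← Finset.mul_sum, ← Finset.sum_mul]
  simp only [cub, tens, map_sum, Finset.sum_mul]
  -- exchange the sums
  have mv : ∀ G : Fin n → Fin n → Fin n → Fin n → A,
      ∑ c, ∑ i, ∑ j, ∑ l, G c i j l = ∑ i, ∑ j, ∑ l, ∑ c, G c i j l := by
    intro G
    rw [Finset.sum_comm]
    refine Finset.sum_congr rfl fun i _ => ?_
    rw [Finset.sum_comm]
    refine Finset.sum_congr rfl fun j _ => ?_
    rw [Finset.sum_comm]
  simp only [h1]
  calc _ = ∑ a, ∑ b, ∑ i, ∑ j, ∑ l, ∑ c,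
        algebraMap R A (t i j l * e a i * e b j * e c l) * y a * y b * y c := by
        refine Finset.sum_congr rfl fun a _ => Finset.sum_congr rfl fun b _ => ?_
        exact mv (fun c i j l => algebraMap R A (t i j l * e a i * e b j * e c l) * y a * y b * y c)
    _ = ∑ a, ∑ i, ∑ j, ∑ l, ∑ b, ∑ c,
        algebraMap R A (t i j l * e a i * e b j * e c l) * y a * y b * y c := by
        refine Finset.sum_congr rfl fun a _ => ?_
        exact mv (fun b i j l => ∑ c,
          algebraMap R A (t i j l * e a i * e b j * e c l) * y a * y b * y c)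
    _ = _ := mv (fun a i j l => ∑ b, ∑ c,
          algebraMap R A (t i j l * e a i * e b j * e c l) * y a * y b * y c)

theorem cub_single {n : ℕ} {R : Type} [CommRing R] (t : Fin n → Fin n → Fin n → R) (j : Fin n) :
    cub t (Pi.single j (1 : R)) = t j j j := by
  simp only [cub, Pi.single_apply, Algebra.algebraMap_self, RingHom.id_apply]
  simp

/-- Values of the norm of `ℚ_p` on a sum over a block. -/
theorem sum_block {n : ℕ} {M : Type} [AddCommMonoid M] (P : Fin n → Prop) [DecidablePred P]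
    (f : Fin n → Fin n → Fin n → M) :
    ∑ a, ∑ b, ∑ c, (if P a ∧ P b ∧ P c then f a b c else 0) =
      ∑ a : {j // P j}, ∑ b : {j // P j}, ∑ c : {j // P j}, f a b c := by
  have h1 : ∀ g : Fin n → M, ∑ a, (if P a then g a else 0) = ∑ a : {j // P j}, g a := by
    intro g
    rw [← Finset.sum_filter]
    exact Finset.sum_subtype _ (by simp) _
  rw [← h1 (fun a => ∑ b : {j // P j}, ∑ c : {j // P j}, f a b c)]
  refine Finset.sum_congr rfl fun a _ => ?_
  by_cases ha : P a
  · rw [if_pos ha, ← h1 (fun b => ∑ c : {j // P j}, f a b c)]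
    refine Finset.sum_congr rfl fun b _ => ?_
    by_cases hb : P b
    · rw [if_pos hb, ← h1 (fun c => f a b c)]
      refine Finset.sum_congr rfl fun c _ => ?_
      by_cases hc : P c
      · simp [ha, hb, hc]
      · simp [hc]
    · simp [hb]
  · simp [ha]

section Gam

open WithZero

/-- The element `exp z` of the value group. -/
def ee (z : ℤ) : WithZero (Multiplicative ℤ) :=
  ((Multiplicative.ofAdd z : Multiplicative ℤ) : WithZero (Multiplicative ℤ))

theorem ee_inj {y z : ℤ} (h : ee y = ee z) : y = z := by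
  have := WithZero.coe_injective h
  exact Multiplicative.ofAdd.injective this

theorem ee_ne (z : ℤ) : ee z ≠ 0 := WithZero.coe_ne_zero

theorem ee_le {y z : ℤ} (h : y ≤ z) : ee y ≤ ee z := by
  rw [ee, ee, WithZero.coe_le_coe]
  exact h

theorem ee_mul (y z : ℤ) : ee (y + z) = ee y * ee z := by
  rw [ee, ee, ee, ofAdd_add, WithZero.coe_mul]

theorem ee_pow3 (y : ℤ) : ee y ^ 3 = ee (3 * y) := by
  have : (3 : ℤ) * y = y + y + y := by ring
  rw [this, ee_mul, ee_mul, pow_succ, pow_two]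

theorem exists_ee {x : WithZero (Multiplicative ℤ)} (h : x ≠ 0) : ∃ z, x = ee z := by
  obtain ⟨a, ha⟩ := WithZero.ne_zero_iff_exists.1 h
  exact ⟨Multiplicative.toAdd a, by rw [← ha]; rfl⟩

theorem mul3_le {a b c g : WithZero (Multiplicative ℤ)} (ha : a ≤ g) (hb : b ≤ g) (hc : c ≤ g) :
    a * b * c ≤ g ^ 3 := by
  calc a * b * c ≤ g * g * g := by gcongr
    _ = g ^ 3 := by rw [pow_succ, pow_two]

theorem mul3_lt {a b c g : WithZero (Multiplicative ℤ)} (hg : g ≠ 0) (ha : a < g) (hb : b ≤ g)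
    (hc : c ≤ g) : a * b * c < g ^ 3 := by
  have hg0 : 0 < g := zero_lt_iff.2 hg
  calc a * b * c = a * (b * c) := mul_assoc _ _ _
    _ ≤ a * (g * g) := by gcongr
    _ < g * (g * g) := mul_lt_mul_of_pos_right ha (mul_pos hg0 hg0)
    _ = g ^ 3 := by rw [pow_succ, pow_two, mul_assoc]

theorem lt_of_cube {a g : WithZero (Multiplicative ℤ)} (h : a ^ 3 < g ^ 3) : a < g :=
  lt_of_pow_lt_pow_left₀ 3 zero_le h

theorem le_of_cube {a g : WithZero (Multiplicative ℤ)} (h : a ^ 3 ≤ g ^ 3) : a ≤ g :=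
  le_of_pow_le_pow_left₀ (by norm_num) zero_le h

end Gam

section Loc

variable {p : ℕ} [hp : Fact p.Prime]

theorem val_of_norm {x : ℚ_[p]} {i : ℕ} (h : ‖x‖ = ((p : ℝ) ^ i)⁻¹) :
    x ≠ 0 ∧ x.valuation = i := by
  have hp0 : (0 : ℝ) < p := by exact_mod_cast hp.out.pos
  have hp1 : (1 : ℝ) < p := by exact_mod_cast hp.out.one_lt
  have hx : x ≠ 0 := by
    rintro rfl
    rw [norm_zero] at h
    have : (0 : ℝ) < ((p : ℝ) ^ i)⁻¹ := by positivity
    linarith
  refine ⟨hx, ?_⟩
  have h1 := Padic.norm_eq_zpow_neg_valuation hx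
  rw [h] at h1
  have h2 : (p : ℝ) ^ (-(i : ℤ)) = (p : ℝ) ^ (-x.valuation) := by
    rw [← h1, zpow_neg, zpow_natCast]
  have h3 := zpow_right_injective₀ hp0 hp1.ne' h2
  omega

theorem val_mono {x y : ℚ_[p]} (hx : x ≠ 0) (hy : y ≠ 0) (h : ‖x‖ ≤ ‖y‖) :
    y.valuation ≤ x.valuation := by
  have hp1 : (1 : ℝ) < p := by exact_mod_cast hp.out.one_lt
  rw [Padic.norm_eq_zpow_neg_valuation hx, Padic.norm_eq_zpow_neg_valuation hy,
    zpow_le_zpow_iff_right₀ hp1] at h
  omega

theorem block_aniso {n : ℕ} (s : Fin n → Fin n → Fin n → ℚ_[p])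
    (hO : ∀ (a : Fin n → ℚ_[p]) (j : Fin n), ‖a j‖ ^ 3 * ‖s j j j‖ ≤ ‖cub s a‖)
    (ii : Fin n → ℕ) (hii : ∀ j, ‖s j j j‖ = ((p : ℝ) ^ (ii j))⁻¹) (i : ℕ)
    (U : {j // ii j = i} → {j // ii j = i} → {j // ii j = i} → ℤ_[p])
    (hU : ∀ a b c : {j // ii j = i}, s a b c = (p : ℚ_[p]) ^ i * (U a b c : ℚ_[p])) :
    Aniso (ZMod p) (fun a b c => PadicInt.toZMod (U a b c)) := by
  classical
  intro y hy h0
  obtain ⟨g, hg⟩ := Function.ne_iff.1 hy
  let a : {j // ii j = i} → ℤ_[p] := fun j => ((y j).val : ℤ_[p])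
  have ha : ∀ j, PadicInt.toZMod (a j) = y j := by
    intro j
    simp [a]
  let A : Fin n → ℚ_[p] := fun j => if h : ii j = i then ((a ⟨j, h⟩ : ℤ_[p]) : ℚ_[p]) else 0
  have hA1 : ∀ j : {j // ii j = i}, A j = (a j : ℚ_[p]) := by
    intro j
    simp [A, j.2]
  have hA2 : ∀ j, ii j ≠ i → A j = 0 := by
    intro j hj
    simp [A, hj]
  have hcub : cub s A = (p : ℚ_[p]) ^ i *
      ((∑ b, ∑ c, ∑ d, U b c d * a b * a c * a d : ℤ_[p]) : ℚ_[p]) := by
    have e1 : cub s A = ∑ b, ∑ c, ∑ d, (if ii b = i ∧ ii c = i ∧ ii d = i then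
        s b c d * A b * A c * A d else 0) := by
      simp only [cub, Algebra.algebraMap_self, RingHom.id_apply]
      refine Finset.sum_congr rfl fun b _ => Finset.sum_congr rfl fun c _ =>
        Finset.sum_congr rfl fun d _ => ?_
      split_ifs with h
      · rfl
      · by_cases hb : ii b = i
        · by_cases hc : ii c = i
          · have hd : ii d ≠ i := fun hd => h ⟨hb, hc, hd⟩
            rw [hA2 d hd, mul_zero]
          · rw [hA2 c hc, mul_zero, zero_mul]
        · rw [hA2 b hb, mul_zero, zero_mul, zero_mul]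
    rw [e1, sum_block (fun j => ii j = i) (fun b c d => s b c d * A b * A c * A d)]
    change _ = (p : ℚ_[p]) ^ i *
      PadicInt.Coe.ringHom (∑ b, ∑ c, ∑ d, U b c d * a b * a c * a d : ℤ_[p])
    simp only [map_sum, map_mul, Finset.mul_sum]
    refine Finset.sum_congr rfl fun b _ => Finset.sum_congr rfl fun c _ =>
        Finset.sum_congr rfl fun d _ => ?_
    rw [hA1 b, hA1 c, hA1 d, hU b c d]
    change _ = (p : ℚ_[p]) ^ i * ((U b c d : ℚ_[p]) * (a b : ℚ_[p]) * (a c : ℚ_[p]) * (a d : ℚ_[p]))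
    ring
  have hz : PadicInt.toZMod (∑ b, ∑ c, ∑ d, U b c d * a b * a c * a d) = 0 := by
    rw [← h0]
    simp only [cub, map_sum, map_mul, ha, Algebra.algebraMap_self, RingHom.id_apply]
  have hlt : ‖(∑ b, ∑ c, ∑ d, U b c d * a b * a c * a d : ℤ_[p])‖ < 1 := by
    have : (∑ b, ∑ c, ∑ d, U b c d * a b * a c * a d : ℤ_[p]) ∈ RingHom.ker
        (PadicInt.toZMod (p := p)) := hz
    rw [PadicInt.ker_toZMod, IsLocalRing.mem_maximalIdeal, PadicInt.mem_nonunits] at this
    exact this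
  have h1 : ‖a g‖ = 1 := by
    have hne : ¬ ‖a g‖ < 1 := by
      intro hlt'
      apply hg
      have : a g ∈ RingHom.ker (PadicInt.toZMod (p := p)) := by
        rw [PadicInt.ker_toZMod, IsLocalRing.mem_maximalIdeal, PadicInt.mem_nonunits]
        exact hlt'
      rw [RingHom.mem_ker, ha g] at this
      exact this
    exact le_antisymm (PadicInt.norm_le_one _) (not_lt.1 hne)
  have h2 := hO A g
  have hp0 : (0 : ℝ) < ((p : ℝ) ^ i)⁻¹ := by
    have : (0 : ℝ) < p := by exact_mod_cast hp.out.pos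
    positivity
  rw [hA1 g, hcub, norm_mul, hii, g.2, norm_pow, Padic.norm_p, PadicInt.padic_norm_e_of_padicInt,
    PadicInt.padic_norm_e_of_padicInt, h1, inv_pow, one_pow, one_mul] at h2
  have h3 : ((p : ℝ) ^ i)⁻¹ * ‖(∑ b, ∑ c, ∑ d, U b c d * a b * a c * a d : ℤ_[p])‖ <
      ((p : ℝ) ^ i)⁻¹ * 1 := mul_lt_mul_of_pos_left hlt hp0
  linarith

/-- The sorted form in an orthogonal basis is anisotropic over `K`. -/
theorem sorted_K (hPRIME : S_PRIME) (hCW : S_CW) (hLOW : S_LOW) (K : Type) [Field K]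
    [Algebra ℚ_[p] K] [FiniteDimensional ℚ_[p] K] (h3 : ¬ 3 ∣ finrank ℚ_[p] K) {n : ℕ}
    (s : Fin n → Fin n → Fin n → ℚ_[p])
    (hO : ∀ (a : Fin n → ℚ_[p]) (j : Fin n), ‖a j‖ ^ 3 * ‖s j j j‖ ≤ ‖cub s a‖)
    (ii : Fin n → ℕ) (hi2 : ∀ j, ii j ≤ 2) (hii : ∀ j, ‖s j j j‖ = ((p : ℝ) ^ (ii j))⁻¹)
    (hcoef : ∀ i j k, ‖s i j k‖ ^ 3 ≤ ‖s i i i‖ * ‖s j j j‖ * ‖s k k k‖)
    (z : Fin n → K) (hz : z ≠ 0) : cub s z ≠ 0 := by
  classical
  obtain ⟨w, e, κ, _, _, _, red, he, hf, hw, hred, hred2⟩ := hPRIME p K h3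
  change ∀ x : ℚ_[p], x ≠ 0 → w (algebraMap ℚ_[p] K x) = ee (-(e : ℤ) * x.valuation) at hw
  -- monotonicity
  have hmono : ∀ x y : ℚ_[p], ‖x‖ ≤ ‖y‖ → w (algebraMap ℚ_[p] K x) ≤ w (algebraMap ℚ_[p] K y) := by
    intro x y hxy
    by_cases hx : x = 0
    · rw [hx, map_zero, map_zero]; exact zero_le
    have hy : y ≠ 0 := by
      rintro rfl
      rw [norm_zero] at hxy
      exact hx (norm_le_zero_iff.1 hxy)
    rw [hw x hx, hw y hy]
    apply ee_le
    have := val_mono hx hy hxy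
    have he0 : (0 : ℤ) ≤ e := by positivity
    nlinarith
  have hτ0 : ∀ j, s j j j ≠ 0 := fun j => (val_of_norm (hii j)).1
  have hτ : ∀ j, w (algebraMap ℚ_[p] K (s j j j)) = ee (-(e : ℤ) * ii j) := by
    intro j
    rw [hw _ (hτ0 j), (val_of_norm (hii j)).2]
  have hcoef' : ∀ i j k, w (algebraMap ℚ_[p] K (s i j k)) ^ 3 ≤
      ee (-(e : ℤ) * ii i) * ee (-(e : ℤ) * ii j) * ee (-(e : ℤ) * ii k) := by
    intro i j k
    have := hmono (s i j k ^ 3) (s i i i * s j j j * s k k k) (by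
      rw [norm_pow, norm_mul, norm_mul]; exact hcoef i j k)
    rwa [map_pow, map_pow, map_mul, map_mul, map_mul, map_mul, hτ, hτ, hτ] at this
  -- the maximal index
  obtain ⟨j1, hj1⟩ := Function.ne_iff.1 hz
  obtain ⟨j0, -, hj0⟩ := Finset.exists_max_image Finset.univ
    (fun j => w (z j) ^ 3 * ee (-(e : ℤ) * ii j)) ⟨j1, Finset.mem_univ _⟩
  have hzj0 : z j0 ≠ 0 := by
    intro h0
    have := hj0 j1 (Finset.mem_univ _)
    rw [h0, map_zero, zero_pow (by norm_num), zero_mul] at this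
    have h2 := le_antisymm this zero_le
    rcases mul_eq_zero.1 h2 with h | h
    · exact hj1 (by simpa using (pow_eq_zero_iff (by norm_num)).1 h)
    · exact ee_ne _ h
  have hwz0 : w (z j0) ≠ 0 := by rwa [Ne, Valuation.zero_iff]
  -- scale
  set y : Fin n → K := fun j => z j / z j0 with hy
  have hzy : z = fun j => z j0 * y j := by
    funext j
    rw [hy]
    field_simp
  suffices hmain : cub s y ≠ 0 by
    rw [hzy, cub_smul]
    exact mul_ne_zero (pow_ne_zero _ hzj0) hmain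
  set i := ii j0 with hi
  have hyj0 : y j0 = 1 := by rw [hy]; exact div_self hzj0
  set γ := ee (-(e : ℤ) * i) with hγ
  have hγ0 : γ ≠ 0 := ee_ne _
  have hyle : ∀ j, w (y j) ^ 3 * ee (-(e : ℤ) * ii j) ≤ γ := by
    intro j
    have h1 := hj0 j (Finset.mem_univ _)
    have h2 : w (y j) = w (z j) / w (z j0) := by rw [hy]; exact map_div₀ w _ _
    rw [h2, div_pow, div_mul_eq_mul_div, div_le_iff₀ (by
      exact pow_pos (zero_lt_iff.2 hwz0) 3)]
    rw [mul_comm γ]
    exact h1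
  have hylt : ∀ j, ii j ≠ i → w (y j) ^ 3 * ee (-(e : ℤ) * ii j) < γ := by
    intro j hj
    refine lt_of_le_of_ne (hyle j) ?_
    intro heq
    have hyj : w (y j) ≠ 0 := by
      intro h
      rw [h, zero_pow (by norm_num), zero_mul] at heq
      exact hγ0 heq.symm
    obtain ⟨a, ha⟩ := exists_ee hyj
    rw [ha, ee_pow3, ← ee_mul, hγ] at heq
    have h1 := ee_inj heq
    have h2 : (3 : ℤ) ∣ e * ((ii j : ℤ) - i) := ⟨a, by linarith⟩
    have h3' : (3 : ℤ) ∣ e ∨ (3 : ℤ) ∣ ((ii j : ℤ) - i) :=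
      (Int.prime_three).dvd_or_dvd h2
    rcases h3' with h | h
    · exact he (by exact_mod_cast h)
    · have := hi2 j
      have := hi2 j0
      omega
  have hy1 : ∀ j, ii j = i → w (y j) ≤ 1 := by
    intro j hj
    have h1 := hyle j
    rw [hj] at h1
    have h2 : w (y j) ^ 3 ≤ 1 := by
      have h3 : w (y j) ^ 3 * γ ≤ 1 * γ := by rw [one_mul]; exact h1
      exact le_of_mul_le_mul_right h3 (zero_lt_iff.2 hγ0)
    apply le_of_cube
    rw [one_pow]; exact h2
  -- the terms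
  let f : Fin n → Fin n → Fin n → K := fun a b c =>
    algebraMap ℚ_[p] K (s a b c) * y a * y b * y c
  have hfle : ∀ a b c, w (f a b c) ^ 3 ≤ (w (y a) ^ 3 * ee (-(e : ℤ) * ii a)) *
      (w (y b) ^ 3 * ee (-(e : ℤ) * ii b)) * (w (y c) ^ 3 * ee (-(e : ℤ) * ii c)) := by
    intro a b c
    have h1 : w (f a b c) ^ 3 = w (algebraMap ℚ_[p] K (s a b c)) ^ 3 *
        (w (y a) ^ 3 * w (y b) ^ 3 * w (y c) ^ 3) := by
      simp only [f, map_mul, mul_pow, mul_assoc]
    rw [h1]
    calc _ ≤ (ee (-(e : ℤ) * ii a) * ee (-(e : ℤ) * ii b) * ee (-(e : ℤ) * ii c)) *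
        (w (y a) ^ 3 * w (y b) ^ 3 * w (y c) ^ 3) := by
          have := hcoef' a b c
          gcongr
      _ = _ := by
        simp only [mul_assoc, mul_comm, mul_left_comm]
  have hflt : ∀ a b c, ¬ (ii a = i ∧ ii b = i ∧ ii c = i) → w (f a b c) < γ := by
    intro a b c h
    apply lt_of_cube
    refine lt_of_le_of_lt (hfle a b c) ?_
    by_cases ha : ii a = i
    · by_cases hb : ii b = i
      · have hc : ii c ≠ i := fun hc => h ⟨ha, hb, hc⟩
        rw [mul_comm, ← mul_assoc]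
        exact mul3_lt hγ0 (hylt c hc) (hyle a) (hyle b)
      · rw [mul_comm (w (y a) ^ 3 * ee (-(e : ℤ) * ii a))]
        exact mul3_lt hγ0 (hylt b hb) (hyle a) (hyle c)
    · exact mul3_lt hγ0 (hylt a ha) (hyle b) (hyle c)
  intro h0
  -- the block sum is small
  have hrest : w (∑ a, ∑ b, ∑ c, (if ii a = i ∧ ii b = i ∧ ii c = i then 0 else f a b c)) < γ := by
    refine Valuation.map_sum_lt _ hγ0 fun a _ => Valuation.map_sum_lt _ hγ0 fun b _ =>
      Valuation.map_sum_lt _ hγ0 fun c _ => ?_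
    split_ifs with h
    · rw [map_zero]; exact zero_lt_iff.2 hγ0
    · exact hflt a b c h
  have hsplit : cub s y = (∑ a, ∑ b, ∑ c, (if ii a = i ∧ ii b = i ∧ ii c = i then f a b c else 0)) +
      ∑ a, ∑ b, ∑ c, (if ii a = i ∧ ii b = i ∧ ii c = i then 0 else f a b c) := by
    simp only [cub, ← Finset.sum_add_distrib]
    refine Finset.sum_congr rfl fun a _ => Finset.sum_congr rfl fun b _ =>
      Finset.sum_congr rfl fun c _ => ?_
    split_ifs <;> simp [f]
  have hblock : w (∑ a : {j // ii j = i}, ∑ b : {j // ii j = i}, ∑ c : {j // ii j = i},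
      f a b c) < γ := by
    rw [← sum_block (fun j => ii j = i) f]
    rw [h0] at hsplit
    have : (∑ a, ∑ b, ∑ c, (if ii a = i ∧ ii b = i ∧ ii c = i then f a b c else 0)) =
      -∑ a, ∑ b, ∑ c, (if ii a = i ∧ ii b = i ∧ ii c = i then 0 else f a b c) := by
      linear_combination -hsplit
    rw [this, Valuation.map_neg]
    exact hrest
  -- integral coefficients
  have hp0 : (p : ℚ_[p]) ≠ 0 := by exact_mod_cast hp.out.ne_zero
  have hp0' : (0 : ℝ) < p := by exact_mod_cast hp.out.pos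
  have hUle : ∀ a b c : {j // ii j = i}, ‖s a b c / (p : ℚ_[p]) ^ i‖ ≤ 1 := by
    intro a b c
    rw [norm_div, norm_pow, Padic.norm_p, inv_pow, div_le_one (by positivity)]
    have h1 := hcoef a b c
    rw [hii, hii, hii, a.2, b.2, c.2] at h1
    have h2 : ‖s a b c‖ ^ 3 ≤ (((p : ℝ) ^ i)⁻¹) ^ 3 := by
      calc _ ≤ _ := h1
        _ = _ := by ring
    exact le_of_pow_le_pow_left₀ (by norm_num) (by positivity) h2
  let U : {j // ii j = i} → {j // ii j = i} → {j // ii j = i} → ℤ_[p] := fun a b c =>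
    ⟨s a b c / (p : ℚ_[p]) ^ i, hUle a b c⟩
  have hU : ∀ a b c : {j // ii j = i}, s a b c = (p : ℚ_[p]) ^ i * (U a b c : ℚ_[p]) := by
    intro a b c
    change s a b c = (p : ℚ_[p]) ^ i * (s a b c / (p : ℚ_[p]) ^ i)
    field_simp
  have hAn := block_aniso s hO ii hii i U hU
  have hcard := hCW p _ _ hAn
  have hAnκ := hLOW (ZMod p) κ _ _ hcard hf hAn
  -- reduction
  have hwint : ∀ u : ℤ_[p], w (algebraMap ℚ_[p] K (u : ℚ_[p])) ≤ 1 := by
    intro u
    have := hmono (u : ℚ_[p]) 1 (by rw [norm_one]; exact PadicInt.norm_le_one u)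
    rwa [map_one, map_one] at this
  let V : {j // ii j = i} → {j // ii j = i} → {j // ii j = i} → w.integer := fun a b c =>
    ⟨algebraMap ℚ_[p] K (U a b c : ℚ_[p]), hwint _⟩
  let Y : {j // ii j = i} → w.integer := fun a => ⟨y a, hy1 a a.2⟩
  let X : w.integer := ∑ a, ∑ b, ∑ c, V a b c * Y a * Y b * Y c
  have hX : (X : K) * algebraMap ℚ_[p] K ((p : ℚ_[p]) ^ i) =
      ∑ a : {j // ii j = i}, ∑ b : {j // ii j = i}, ∑ c : {j // ii j = i}, f a b c := by
    have e1 : (X : K) = ∑ a : {j // ii j = i}, ∑ b : {j // ii j = i}, ∑ c : {j // ii j = i},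
        algebraMap ℚ_[p] K (U a b c : ℚ_[p]) * y a * y b * y c := by
      change w.integer.subtype X = _
      simp only [X, map_sum, map_mul]
      rfl
    rw [e1, Finset.sum_mul]
    refine Finset.sum_congr rfl fun a _ => ?_
    rw [Finset.sum_mul]
    refine Finset.sum_congr rfl fun b _ => ?_
    rw [Finset.sum_mul]
    refine Finset.sum_congr rfl fun c _ => ?_
    change _ = algebraMap ℚ_[p] K (s a b c) * y a * y b * y c
    rw [hU a b c, map_mul]
    ring
  have hwp : w (algebraMap ℚ_[p] K ((p : ℚ_[p]) ^ i)) = γ := by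
    rw [hw _ (pow_ne_zero _ hp0), hγ]
    congr 1
    have : ((p : ℚ_[p]) ^ i).valuation = i := by
      exact (val_of_norm (p := p) (x := (p : ℚ_[p]) ^ i) (i := i) (by
        rw [norm_pow, Padic.norm_p, inv_pow])).2
    rw [this]
  have hX1 : w (X : K) < 1 := by
    have h1 := hblock
    rw [← hX, map_mul, hwp] at h1
    have h2 : w (X : K) * γ < 1 * γ := by rw [one_mul]; exact h1
    exact lt_of_mul_lt_mul_right h2 zero_le
  have hX0 : red X = 0 := (hred X).2 hX1
  apply hAnκ (fun a => red (Y a))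
  · intro hc
    have h1 : red (Y ⟨j0, rfl⟩) = 0 := congrFun hc ⟨j0, rfl⟩
    have h2 : Y ⟨j0, rfl⟩ = 1 := Subtype.ext hyj0
    rw [h2, map_one] at h1
    exact one_ne_zero h1
  · rw [← hX0]
    simp only [cub, X, map_sum, map_mul]
    refine Finset.sum_congr rfl fun a _ => Finset.sum_congr rfl fun b _ =>
      Finset.sum_congr rfl fun c _ => ?_
    rw [hred2 (U a b c) (V a b c) rfl]

end Loc

/-- Coray's theorem over `ℚ_p` in terms of tensors. -/
theorem t_LOC (hSORT : S_SORT) (hORTH : S_ORTH) (hCOEF : S_COEF) (hPRIME : S_PRIME)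
    (hCW : S_CW) (hLOW : S_LOW) : S_LOC := by
  intro p hp K _ _ _ h3 n t hA x hx
  obtain ⟨e, hlin, hO, hexp⟩ := hORTH p n t hA
  obtain ⟨s, hs0, hs⟩ := hSORT n ℚ_[p] (tens t e)
  have hev : ∀ a : Fin n → ℚ_[p], cub s a = cub t (∑ i, a i • e i) := by
    intro a
    rw [hs, cub_tens]
    congr 1
    funext i
    simp only [Algebra.algebraMap_self, RingHom.id_apply, Finset.sum_apply, Pi.smul_apply,
      smul_eq_mul]
  have hsj : ∀ j, s j j j = cub t (e j) := by
    intro j
    rw [← cub_single s j, hev]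
    congr 1
    simp [Pi.single_apply]
  have hAs : Aniso ℚ_[p] s := by
    intro a ha h0
    rw [hev] at h0
    apply hA _ _ h0
    intro hc
    apply ha
    have := Fintype.linearIndependent_iff.1 hlin a hc
    funext i
    exact this i
  choose ii hi2 hii using hexp
  have hii' : ∀ j, ‖s j j j‖ = ((p : ℝ) ^ (ii j))⁻¹ := fun j => by rw [hsj]; exact hii j
  have hO' : ∀ (a : Fin n → ℚ_[p]) (j : Fin n), ‖a j‖ ^ 3 * ‖s j j j‖ ≤ ‖cub s a‖ := by
    intro a j
    rw [hev, hsj]
    exact hO a j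
  have hcoef := hCOEF p n s hAs hs0 (fun j => ⟨ii j, hi2 j, hii' j⟩)
  -- coordinates over K
  let M : Matrix (Fin n) (Fin n) ℚ_[p] := Matrix.of e
  have hM : IsUnit M.det := by
    rw [← Matrix.isUnit_iff_isUnit_det]
    exact Matrix.linearIndependent_rows_iff_isUnit.1 hlin
  let MK : Matrix (Fin n) (Fin n) K := M.map (algebraMap ℚ_[p] K)
  have hMK : IsUnit MK.det := by
    have : MK.det = algebraMap ℚ_[p] K M.det := by
      rw [RingHom.map_det]; rfl
    rw [this]
    exact hM.map _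
  let y : Fin n → K := Matrix.vecMul x MK⁻¹
  have hyx : Matrix.vecMul y MK = x := by
    rw [Matrix.vecMul_vecMul, Matrix.nonsing_inv_mul _ hMK, Matrix.vecMul_one]
  have hy : y ≠ 0 := by
    intro h
    rw [h, Matrix.zero_vecMul] at hyx
    exact hx hyx.symm
  have h1 := sorted_K hPRIME hCW hLOW K h3 s hO' ii hi2 hii' hcoef y hy
  rw [hs, cub_tens] at h1
  have h2 : (fun i => ∑ a, y a * algebraMap ℚ_[p] K (e a i)) = x := by
    rw [← hyx]
    funext i
    simp only [Matrix.vecMul, dotProduct]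
    rfl
  rwa [h2] at h1

end Pool.Agent.Y214.CY
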