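import Pool.Agent.Y214.CY.Stm

/-!
# Plane cubics with a point of degree prime to three

The descent: an anisotropic cubic form in at most three variables over a field `k` stays anisotropic
over every extension whose degree is prime to three.
-/

set_option autoImplicit false

namespace Pool.Agent.Y214.CY

open Module Polynomial

/-- A monic cubic polynomial with a root in an extension of degree prime to three has a root. -/
theorem root_descent {k K : Type} [Field k] [Field K] [Algebra k K] [FiniteDimensional k K]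
    (h3 : ¬ 3 ∣ finrank k K) (a b c : k) (z : K)
    (hz : z ^ 3 + algebraMap k K a * z ^ 2 + algebraMap k K b * z + algebraMap k K c = 0) :
    ∃ z0 : k, z0 ^ 3 + a * z0 ^ 2 + b * z0 + c = 0 := by
  by_contra hno
  push Not at hno
  set P : k[X] := X ^ 3 + C a * X ^ 2 + C b * X + C c with hP
  have hdeg : P.natDegree = 3 := by
    rw [hP]; compute_degree!
  have hmon : P.Monic := by
    rw [hP]; monicity!
  have hirr : Irreducible P := by
    rw [hmon.irreducible_iff_roots_eq_zero_of_degree_le_three (by omega) (by omega)]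
    rw [Multiset.eq_zero_iff_forall_notMem]
    intro x hx
    rw [mem_roots hmon.ne_zero] at hx
    apply hno x
    have := hx
    simp [hP, IsRoot] at this
    linear_combination this
  have hroot : aeval z P = 0 := by
    simp only [hP, map_add, map_mul, map_pow, aeval_X, aeval_C]
    linear_combination hz
  have hmin : minpoly k z = P := (minpoly.eq_of_irreducible_of_monic hirr hroot hmon).symm
  have hint : IsIntegral k z := Algebra.IsIntegral.isIntegral z
  have hd := minpoly.degree_dvd (K := k) (L := K) hint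
  rw [hmin, hdeg] at hd
  exact h3 hd

/-- The plane cubic with the coefficient vector `q`. -/
def pl {A : Type} [CommRing A] (q : Fin 9 → A) (x y z : A) : A :=
  z ^ 3 + (q 0 * x + q 1 * y) * z ^ 2 + (q 2 * x ^ 2 + q 3 * x * y + q 4 * y ^ 2) * z +
    (q 5 * x ^ 3 + q 6 * x ^ 2 * y + q 7 * x * y ^ 2 + q 8 * y ^ 3)

/-- No nontrivial zero. -/
def PA {A : Type} [CommRing A] (q : Fin 9 → A) : Prop :=
  ∀ x y z : A, pl q x y z = 0 → x = 0 ∧ y = 0 ∧ z = 0

theorem pl_map {A B : Type} [CommRing A] [CommRing B] (φ : A →+* B) (q : Fin 9 → A) (x y z : A) :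
    φ (pl q x y z) = pl (fun i => φ (q i)) (φ x) (φ y) (φ z) := by
  simp [pl]

theorem nrm_map {A B : Type} [CommRing A] [CommRing B] (φ : A →+* B) (a b c g0 g1 g2 : A) :
    φ (nrm a b c g0 g1 g2) = nrm (φ a) (φ b) (φ c) (φ g0) (φ g1) (φ g2) := by
  simp [nrm, map_ofNat]

theorem nrm_mul {A : Type} [CommRing A] (a b c g0 g1 g2 s : A) :
    nrm a b c (s * g0) (s * g1) (s * g2) = s ^ 3 * nrm a b c g0 g1 g2 := by
  simp only [nrm]; ring

section TT

variable {k : Type} [Field k]

theorem T_drop {n : ℤ} {p : k[X]} (h : T n p 0) : ∃ c, T (n - 1) p c := by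
  rcases h with ⟨m, hn, hd, hc⟩ | ⟨hn, hp, _⟩
  · rcases Nat.eq_zero_or_pos m with rfl | hm
    · refine ⟨0, Or.inr ⟨by omega, ?_, rfl⟩⟩
      have h0 := eq_C_of_natDegree_le_zero hd
      rw [h0, hc, map_zero]
    · refine ⟨p.coeff (m - 1), Or.inl ⟨m - 1, by omega, ?_, rfl⟩⟩
      have : p.natDegree ≠ m := by
        intro he
        have hlc : p.leadingCoeff = 0 := by rw [leadingCoeff, he, hc]
        rw [leadingCoeff_eq_zero] at hlc
        rw [hlc] at he
        simp at he
        omega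
      omega
  · exact ⟨0, Or.inr ⟨by omega, hp, rfl⟩⟩

theorem T_div {n : ℤ} {π q : k[X]} {c : k} (hπ : 1 ≤ π.natDegree) (h : T n (π * q) c) :
    ∃ c', T (n - 1) q c' := by
  have hπ0 : π ≠ 0 := by rintro rfl; simp at hπ
  by_cases hq : q = 0
  · subst hq
    by_cases hn : n - 1 < 0
    · exact ⟨0, Or.inr ⟨hn, rfl, rfl⟩⟩
    · exact ⟨0, Or.inl ⟨(n - 1).toNat, by omega, by simp, by simp⟩⟩
  rcases h with ⟨m, hn, hd, hc⟩ | ⟨hn, hp, _⟩
  · rw [natDegree_mul hπ0 hq] at hd
    exact ⟨q.coeff (m - 1), Or.inl ⟨m - 1, by omega, by omega, rfl⟩⟩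
  · exact absurd hp (mul_ne_zero hπ0 hq)

theorem T_neg {n : ℤ} {p : k[X]} {c : k} (hn : n < 0) (h : T n p c) : p = 0 := by
  rcases h with ⟨m, hm, _, _⟩ | ⟨_, hp, _⟩
  · omega
  · exact hp

theorem T_LT {N : ℕ} {p : k[X]} (h : p ∈ degreeLT k N) : ∃ c, T ((N : ℤ) - 1) p c := by
  rw [mem_degreeLT] at h
  rcases Nat.eq_zero_or_pos N with rfl | hN
  · refine ⟨0, Or.inr ⟨by simp, ?_, rfl⟩⟩
    simpa using h
  · refine ⟨p.coeff (N - 1), Or.inl ⟨N - 1, by omega, ?_, rfl⟩⟩
    by_cases hp : p = 0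
    · simp [hp]
    · have := (natDegree_lt_iff_degree_lt hp).2 h
      omega

end TT

/-- The descent for plane cubics. -/
theorem plane (H1 : S_NRM1) (H2 : S_NRM2) (H3 : S_TOP) (m : ℕ) :
    ∀ (k K : Type) [Field k] [Field K] [Algebra k K] [FiniteDimensional k K],
      finrank k K = m → ¬ 3 ∣ m → ∀ q : Fin 9 → k, PA q → PA (fun i => algebraMap k K (q i)) := by
  induction m using Nat.strong_induction_on with
  | _ m IH =>
  intro k K _ _ _ _ hm h3 q hq x y z h0
  have h3' : ¬ 3 ∣ finrank k K := by rw [hm]; exact h3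
  by_cases hy : y = 0
  · by_cases hx : x = 0
    · subst hx; subst hy
      refine ⟨rfl, rfl, ?_⟩
      simp only [pl] at h0
      have : z ^ 3 = 0 := by linear_combination h0
      exact pow_eq_zero_iff (by norm_num) |>.1 this
    · exfalso
      subst hy
      obtain ⟨z0, hz0⟩ := root_descent h3' (q 0) (q 2) (q 5) (z / x) (by
        simp only [pl] at h0
        field_simp
        linear_combination h0)
      have := (hq 1 0 z0 (by simp only [pl]; linear_combination hz0)).1
      exact one_ne_zero this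
  exfalso
  -- normalise
  obtain ⟨u, v, h1⟩ : ∃ u v : K, pl (fun i => algebraMap k K (q i)) u 1 v = 0 := by
    refine ⟨x / y, z / y, ?_⟩
    simp only [pl] at h0 ⊢
    field_simp
    linear_combination h0
  have hm0 : 0 < m := by rw [← hm]; exact finrank_pos
  have hintu : IsIntegral k u := Algebra.IsIntegral.isIntegral u
  -- the field generated by u
  have hd : (minpoly k u).natDegree = m := by
    by_contra hne
    have hdvd := minpoly.degree_dvd (K := k) (L := K) hintu
    rw [hm] at hdvd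
    have hlt : (minpoly k u).natDegree < m := lt_of_le_of_ne (Nat.le_of_dvd hm0 hdvd) hne
    have hfin : finrank k (IntermediateField.adjoin k {u}) = (minpoly k u).natDegree :=
      IntermediateField.adjoin.finrank hintu
    have hmul := finrank_mul_finrank k (IntermediateField.adjoin k {u}) K
    rw [hm] at hmul
    have h3a : ¬ 3 ∣ finrank k (IntermediateField.adjoin k {u}) := fun h =>
      h3 (h.trans (Dvd.intro _ hmul))
    have h3b : ¬ 3 ∣ finrank (IntermediateField.adjoin k {u}) K := fun h =>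
      h3 (h.trans (Dvd.intro_left _ hmul))
    set κ := IntermediateField.adjoin k {u} with hκ
    let u' : κ := ⟨u, IntermediateField.mem_adjoin_simple_self k u⟩
    obtain ⟨v', hv'⟩ := root_descent (k := κ) (K := K) h3b
      (algebraMap k κ (q 0) * u' + algebraMap k κ (q 1))
      (algebraMap k κ (q 2) * u' ^ 2 + algebraMap k κ (q 3) * u' + algebraMap k κ (q 4))
      (algebraMap k κ (q 5) * u' ^ 3 + algebraMap k κ (q 6) * u' ^ 2 +
        algebraMap k κ (q 7) * u' + algebraMap k κ (q 8)) v (by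
        have e1 : algebraMap κ K u' = u := rfl
        simp only [map_add, map_mul, map_pow, ← IsScalarTower.algebraMap_apply k κ K, e1]
        simp only [pl] at h1
        linear_combination h1)
    have := IH _ (by rw [hfin]; exact hlt) k κ rfl h3a q hq u' 1 v' (by
      simp only [pl]; linear_combination hv')
    exact one_ne_zero this.2.1
  -- the polynomials
  set a : k[X] := C (q 0) * X + C (q 1) with ha
  set b : k[X] := C (q 2) * X ^ 2 + C (q 3) * X + C (q 4) with hb
  set c : k[X] := C (q 5) * X ^ 3 + C (q 6) * X ^ 2 + C (q 7) * X + C (q 8) with hc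
  have Ta : T 1 a (q 0) := Or.inl ⟨1, by norm_num, by rw [ha]; compute_degree, by
    rw [ha]; simp⟩
  have Tb : T 2 b (q 2) := Or.inl ⟨2, by norm_num, by rw [hb]; compute_degree, by
    rw [hb]; simp [coeff_X, coeff_C]⟩
  have Tc : T 3 c (q 5) := Or.inl ⟨3, by norm_num, by rw [hc]; compute_degree, by
    rw [hc]; simp [coeff_X, coeff_C]⟩
  have hroot : v ^ 3 + aeval u a * v ^ 2 + aeval u b * v + aeval u c = 0 := by
    simp only [ha, hb, hc, map_add, map_mul, map_pow, aeval_X, aeval_C]
    simp only [pl] at h1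
    linear_combination h1
  -- m = 1
  rcases Nat.lt_or_ge m 2 with hm1 | hm2
  · have hm1' : finrank k K = 1 := by omega
    obtain ⟨u0, hu0⟩ : ∃ u0 : k, algebraMap k K u0 = u := by
      exact (Algebra.finrank_eq_one_iff_bijective_algebraMap.1 hm1').2 u
    obtain ⟨v', hv'⟩ := root_descent h3' (q 0 * u0 + q 1) (q 2 * u0 ^ 2 + q 3 * u0 + q 4)
      (q 5 * u0 ^ 3 + q 6 * u0 ^ 2 + q 7 * u0 + q 8) v (by
        simp only [map_add, map_mul, map_pow, hu0]
        simp only [pl] at h1
        linear_combination h1)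
    exact one_ne_zero (hq u0 1 v' (by simp only [pl]; linear_combination hv')).2.1
  -- vanishing triples
  let Pr : ℕ → Prop := fun r => ∃ (g0 g1 g2 : k[X]) (c0 c1 c2 : k),
    (g0 ≠ 0 ∨ g1 ≠ 0 ∨ g2 ≠ 0) ∧ T r g0 c0 ∧ T (r - 1) g1 c1 ∧ T (r - 2) g2 c2 ∧
    aeval u g0 + aeval u g1 * v + aeval u g2 * v ^ 2 = 0
  have hex : Pr (m / 3 + 1) := by
    set r := m / 3 + 1 with hr
    let L : (degreeLT k (r + 1) × degreeLT k r × degreeLT k (r - 1)) →ₗ[k] K :=
      { toFun := fun g => aeval u (g.1 : k[X]) + aeval u (g.2.1 : k[X]) * v +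
          aeval u (g.2.2 : k[X]) * v ^ 2
        map_add' := by
          intro g h
          simp only [Prod.fst_add, Prod.snd_add, Submodule.coe_add, map_add]
          ring
        map_smul' := by
          intro s g
          simp only [Prod.smul_fst, Prod.smul_snd, Submodule.coe_smul, map_smul, RingHom.id_apply,
            smul_add, Algebra.smul_mul_assoc] }
    have hfd : finrank k (degreeLT k (r + 1) × degreeLT k r × degreeLT k (r - 1)) = 3 * r := by
      rw [finrank_prod, finrank_prod, (degreeLTEquiv k _).finrank_eq,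
        (degreeLTEquiv k _).finrank_eq, (degreeLTEquiv k _).finrank_eq]
      simp only [finrank_fin_fun]
      omega
    have : ∀ N : ℕ, FiniteDimensional k (degreeLT k N) := fun N =>
      FiniteDimensional.of_injective (degreeLTEquiv k N).toLinearMap (degreeLTEquiv k N).injective
    have hker : LinearMap.ker L ≠ ⊥ := by
      apply LinearMap.ker_ne_bot_of_finrank_lt
      rw [hfd, hm]
      omega
    obtain ⟨g, hg, hg0⟩ := (Submodule.ne_bot_iff _).1 hker
    obtain ⟨c0, hc0⟩ := T_LT g.1.2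
    obtain ⟨c1, hc1⟩ := T_LT g.2.1.2
    obtain ⟨c2, hc2⟩ := T_LT g.2.2.2
    refine ⟨g.1, g.2.1, g.2.2, c0, c1, c2, ?_, ?_, ?_, ?_, ?_⟩
    · by_contra hcon
      push Not at hcon
      apply hg0
      refine Prod.ext (Subtype.ext hcon.1) (Prod.ext (Subtype.ext hcon.2.1) (Subtype.ext hcon.2.2))
    · have e : (((r + 1 : ℕ) : ℤ) - 1) = (r : ℤ) := by push_cast; ring
      rw [e] at hc0
      exact hc0
    · exact hc1
    · have e : (((r - 1 : ℕ) : ℤ) - 1) = (r : ℤ) - 2 := by omega
      rw [e] at hc2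
      exact hc2
    · exact hg
  classical
  have hex' : ∃ r, Pr r := ⟨_, hex⟩
  set r := Nat.find hex' with hrdef
  have hrle : r ≤ m / 3 + 1 := Nat.find_min' hex' hex
  have hmin : ∀ r', r' < r → ¬ Pr r' := fun r' h => Nat.find_min hex' h
  obtain ⟨g0, g1, g2, c0, c1, c2, hne, hT0, hT1, hT2, hG⟩ := Nat.find_spec hex'
  rw [← hrdef] at hT0 hT1 hT2
  set N := nrm a b c g0 g1 g2 with hN
  have hTN : T (3 * r) N (nrm (q 0) (q 2) (q 5) c0 c1 c2) :=
    H3 k a b c g0 g1 g2 _ _ _ _ _ _ r Ta Tb Tc hT0 hT1 hT2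
  have hMN : minpoly k u ∣ N := by
    apply minpoly.dvd
    have e := nrm_map ((aeval u : k[X] →ₐ[k] K) : k[X] →+* K) a b c g0 g1 g2
    have e2 : aeval u N = nrm (aeval u a) (aeval u b) (aeval u c) (aeval u g0) (aeval u g1)
      (aeval u g2) := e
    rw [e2]
    exact H1 K _ _ _ _ _ _ v hroot hG
  -- descent step
  have hstep : ∀ (h0 h1 h2 π : k[X]), 1 ≤ π.natDegree → aeval u π ≠ 0 → g0 = π * h0 →
      g1 = π * h1 → g2 = π * h2 → False := by
    intro f0 f1 f2 π hπ hπu e0 e1 e2
    have hπ0 : π ≠ 0 := by rintro rfl; simp at hπ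
    rw [e0] at hT0; rw [e1] at hT1; rw [e2] at hT2
    obtain ⟨d0, hd0⟩ := T_div hπ hT0
    obtain ⟨d1, hd1⟩ := T_div hπ hT1
    obtain ⟨d2, hd2⟩ := T_div hπ hT2
    have hne' : f0 ≠ 0 ∨ f1 ≠ 0 ∨ f2 ≠ 0 := by
      by_contra hcon
      push Not at hcon
      rw [e0, e1, e2, hcon.1, hcon.2.1, hcon.2.2] at hne
      simp at hne
    rcases Nat.eq_zero_or_pos r with hr0 | hr1
    · rw [hr0] at hd0 hd1 hd2
      rw [T_neg (by norm_num) hd0, T_neg (by norm_num) hd1, T_neg (by norm_num) hd2] at hne'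
      simp at hne'
    · apply hmin (r - 1) (by omega)
      refine ⟨f0, f1, f2, d0, d1, d2, hne', ?_, ?_, ?_, ?_⟩
      · have e : (((r - 1 : ℕ)) : ℤ) = (r : ℤ) - 1 := by omega
        rw [e]; exact hd0
      · have e : (((r - 1 : ℕ)) : ℤ) - 1 = (r : ℤ) - 1 - 1 := by omega
        rw [e]; exact hd1
      · have e : (((r - 1 : ℕ)) : ℤ) - 2 = (r : ℤ) - 2 - 1 := by omega
        rw [e]; exact hd2
      · rw [e0, e1, e2] at hG
        simp only [map_mul] at hG
        have : aeval u π * (aeval u f0 + aeval u f1 * v + aeval u f2 * v ^ 2) = 0 := by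
          linear_combination hG
        exact (mul_eq_zero.1 this).resolve_left hπu
  have hnodiv : ∀ π : k[X], Irreducible π → π.natDegree < m → ¬ 3 ∣ π.natDegree → ¬ π ∣ N := by
    intro π hπ hlt h3π hdvd
    have : Fact (Irreducible π) := ⟨hπ⟩
    have hpos : 1 ≤ π.natDegree := hπ.natDegree_pos
    have : FiniteDimensional k (AdjoinRoot π) := (AdjoinRoot.powerBasis hπ.ne_zero).finite
    have hfr : finrank k (AdjoinRoot π) = π.natDegree := by
      rw [(AdjoinRoot.powerBasis hπ.ne_zero).finrank, AdjoinRoot.powerBasis_dim]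
    have hPA := IH _ hlt k (AdjoinRoot π) hfr h3π q hq
    have e := nrm_map (AdjoinRoot.mk π) a b c g0 g1 g2
    have hz : AdjoinRoot.mk π N = 0 := AdjoinRoot.mk_eq_zero.2 hdvd
    rw [← hN, hz] at e
    have hC : ∀ s : k, AdjoinRoot.mk π (C s) = algebraMap k (AdjoinRoot π) s := by
      intro s
      rw [AdjoinRoot.mk_C]; rfl
    obtain ⟨z0, z1, z2⟩ := H2 (AdjoinRoot π) _ _ _ _ _ _ (by
      intro ζ hζ
      have := hPA (AdjoinRoot.root π) 1 ζ (by
        simp only [ha, hb, hc, map_add, map_mul, map_pow, AdjoinRoot.mk_X, hC] at hζ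
        simp only [pl]
        linear_combination hζ)
      exact one_ne_zero this.2.1) e.symm
    rw [AdjoinRoot.mk_eq_zero] at z0 z1 z2
    obtain ⟨f0, e0⟩ := z0
    obtain ⟨f1, e1⟩ := z1
    obtain ⟨f2, e2⟩ := z2
    refine hstep f0 f1 f2 π hpos ?_ e0 e1 e2
    intro hu0
    have hdv := minpoly.dvd k u hu0
    have := natDegree_le_of_dvd hdv hπ.ne_zero
    omega
  have hN0 : N ≠ 0 := by
    intro hN0
    apply hnodiv X irreducible_X (by simp; omega) (by simp)
    rw [hN0]; exact dvd_zero _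
  obtain ⟨Q, hQ⟩ := hMN
  have hM0 : minpoly k u ≠ 0 := minpoly.ne_zero hintu
  have hQ0 : Q ≠ 0 := by rintro rfl; rw [mul_zero] at hQ; exact hN0 hQ
  have hdegN : N.natDegree = m + Q.natDegree := by
    rw [hQ, natDegree_mul hM0 hQ0, hd]
  have hdegN' : N.natDegree ≤ 3 * r ∧ N.coeff (3 * r) = nrm (q 0) (q 2) (q 5) c0 c1 c2 := by
    rcases hTN with ⟨m', hm', h4, h5⟩ | ⟨hneg, _, _⟩
    · have : m' = 3 * r := by omega
      subst this
      exact ⟨h4, h5⟩
    · omega
  have hQd : Q.natDegree = 0 := by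
    by_contra hQd
    have hnu : ¬ IsUnit Q := fun hu => hQd (natDegree_eq_zero_of_isUnit hu)
    obtain ⟨π, hπ, hπQ⟩ := WfDvdMonoid.exists_irreducible_factor hnu hQ0
    have hle := natDegree_le_of_dvd hπQ hQ0
    have hpos : 1 ≤ π.natDegree := hπ.natDegree_pos
    have hr3 := hdegN'.1
    apply hnodiv π hπ (by omega) (by omega)
    rw [hQ]
    exact hπQ.mul_left _
  have hlt : m < 3 * r := by
    have := hdegN'.1
    rcases Nat.lt_or_ge m (3 * r) with h | h
    · exact h
    · exfalso; apply h3; exact ⟨r, by omega⟩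
  have hco : N.coeff (3 * r) = 0 := coeff_eq_zero_of_natDegree_lt (by omega)
  rw [hdegN'.2] at hco
  obtain ⟨z0, z1, z2⟩ := H2 k _ _ _ _ _ _ (by
    intro ζ hζ
    have := hq 1 0 ζ (by simp only [pl]; linear_combination hζ)
    exact one_ne_zero this.1) hco
  rw [z0] at hT0; rw [z1] at hT1; rw [z2] at hT2
  obtain ⟨d0, hd0⟩ := T_drop hT0
  obtain ⟨d1, hd1⟩ := T_drop hT1
  obtain ⟨d2, hd2⟩ := T_drop hT2
  apply hmin (r - 1) (by omega)
  refine ⟨g0, g1, g2, d0, d1, d2, hne, ?_, ?_, ?_, hG⟩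
  · have e : (((r - 1 : ℕ)) : ℤ) = (r : ℤ) - 1 := by omega
    rw [e]; exact hd0
  · have e : (((r - 1 : ℕ)) : ℤ) - 1 = (r : ℤ) - 1 - 1 := by omega
    rw [e]; exact hd1
  · have e : (((r - 1 : ℕ)) : ℤ) - 2 = (r : ℤ) - 2 - 1 := by omega
    rw [e]; exact hd2

theorem cub_equiv {ι ι' R A : Type} [Fintype ι] [Fintype ι'] [CommRing R] [CommRing A]
    [Algebra R A] (e : ι ≃ ι') (t : ι → ι → ι → R) (y : ι → A) :
    cub (fun i j l => t (e.symm i) (e.symm j) (e.symm l)) (fun i => y (e.symm i)) = cub t y := by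
  simp only [cub]
  rw [← Equiv.sum_comp e.symm]
  refine Finset.sum_congr rfl fun i _ => ?_
  rw [← Equiv.sum_comp e.symm]
  refine Finset.sum_congr rfl fun j _ => ?_
  rw [← Equiv.sum_comp e.symm]

theorem aniso_equiv {ι ι' R A : Type} [Fintype ι] [Fintype ι'] [CommRing R] [CommRing A]
    [Algebra R A] (e : ι ≃ ι') (t : ι → ι → ι → R) :
    Aniso A (fun i j l => t (e.symm i) (e.symm j) (e.symm l)) ↔ Aniso A t := by
  constructor
  · intro h y hy h0
    apply h (fun i => y (e.symm i))
    · intro hc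
      apply hy
      funext i
      have := congrFun hc (e i)
      simpa using this
    · rw [cub_equiv, h0]
  · intro h y hy h0
    apply h (fun i => y (e i))
    · intro hc
      apply hy
      funext i
      have := congrFun hc (e.symm i)
      simpa using this
    · rw [← cub_equiv e]
      simpa using h0

theorem cub_fin1 {R A : Type} [CommRing R] [CommRing A] [Algebra R A]
    (t : Fin 1 → Fin 1 → Fin 1 → R) (y : Fin 1 → A) :
    cub t y = algebraMap R A (t 0 0 0) * y 0 ^ 3 := by
  simp [cub]; ring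

theorem cub_fin2 {R A : Type} [CommRing R] [CommRing A] [Algebra R A]
    (t : Fin 2 → Fin 2 → Fin 2 → R) (y : Fin 2 → A) :
    cub t y = algebraMap R A (t 0 0 0) * y 0 ^ 3 +
      algebraMap R A (t 0 0 1 + t 0 1 0 + t 1 0 0) * y 0 ^ 2 * y 1 +
      algebraMap R A (t 0 1 1 + t 1 0 1 + t 1 1 0) * y 0 * y 1 ^ 2 +
      algebraMap R A (t 1 1 1) * y 1 ^ 3 := by
  simp only [cub, Fin.sum_univ_two, map_add]; ring

theorem cub_fin3 {R A : Type} [CommRing R] [CommRing A] [Algebra R A]
    (t : Fin 3 → Fin 3 → Fin 3 → R) (y : Fin 3 → A) :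
    cub t y = algebraMap R A (t 2 2 2) * y 2 ^ 3 +
      (algebraMap R A (t 0 2 2 + t 2 0 2 + t 2 2 0) * y 0 +
        algebraMap R A (t 1 2 2 + t 2 1 2 + t 2 2 1) * y 1) * y 2 ^ 2 +
      (algebraMap R A (t 0 0 2 + t 0 2 0 + t 2 0 0) * y 0 ^ 2 +
        algebraMap R A (t 0 1 2 + t 0 2 1 + t 1 0 2 + t 1 2 0 + t 2 0 1 + t 2 1 0) * y 0 * y 1 +
        algebraMap R A (t 1 1 2 + t 1 2 1 + t 2 1 1) * y 1 ^ 2) * y 2 +
      (algebraMap R A (t 0 0 0) * y 0 ^ 3 +
        algebraMap R A (t 0 0 1 + t 0 1 0 + t 1 0 0) * y 0 ^ 2 * y 1 +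
        algebraMap R A (t 0 1 1 + t 1 0 1 + t 1 1 0) * y 0 * y 1 ^ 2 +
        algebraMap R A (t 1 1 1) * y 1 ^ 3) := by
  simp only [cub, Fin.sum_univ_three, map_add]; ring

theorem low_fin (H1 : S_NRM1) (H2 : S_NRM2) (H3 : S_TOP) (k K : Type) [Field k] [Field K]
    [Algebra k K] [FiniteDimensional k K] (h3 : ¬ 3 ∣ finrank k K) (n : ℕ) (hn : n ≤ 3)
    (t : Fin n → Fin n → Fin n → k) (hA : Aniso k t) : Aniso K t := by
  intro y hy h0
  interval_cases n
  · exact hy (Subsingleton.elim _ _)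
  · rw [cub_fin1] at h0
    have h1 := hA 1 one_ne_zero
    rw [cub_fin1] at h1
    apply hy
    funext i
    fin_cases i
    have hne : algebraMap k K (t 0 0 0) ≠ 0 := by
      intro h
      apply h1
      have : t 0 0 0 = 0 := (algebraMap k K).injective (by rw [h, map_zero])
      simp [this]
    exact pow_eq_zero_iff (by norm_num) |>.1 ((mul_eq_zero.1 h0).resolve_left hne)
  · have hA' : ∀ x z : k, t 0 0 0 * x ^ 3 + (t 0 0 1 + t 0 1 0 + t 1 0 0) * x ^ 2 * z +
        (t 0 1 1 + t 1 0 1 + t 1 1 0) * x * z ^ 2 + t 1 1 1 * z ^ 3 = 0 → x = 0 ∧ z = 0 := by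
      intro x z hxz
      by_contra hcon
      apply hA ![x, z]
      · intro h
        apply hcon
        exact ⟨by simpa using congrFun h 0, by simpa using congrFun h 1⟩
      · rw [cub_fin2]
        simpa using hxz
    have h000 : t 0 0 0 ≠ 0 := by
      intro h
      have := (hA' 1 0 (by simp [h])).1
      exact one_ne_zero this
    rw [cub_fin2] at h0
    have h000' : algebraMap k K (t 0 0 0) ≠ 0 := fun h =>
      h000 ((algebraMap k K).injective (by rw [h, map_zero]))
    by_cases hy1 : y 1 = 0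
    · rw [hy1] at h0
      have hy0 : y 0 = 0 := by
        have : algebraMap k K (t 0 0 0) * y 0 ^ 3 = 0 := by linear_combination h0
        exact pow_eq_zero_iff (by norm_num) |>.1 ((mul_eq_zero.1 this).resolve_left h000')
      apply hy
      funext i
      fin_cases i
      · exact hy0
      · exact hy1
    · obtain ⟨z0, hz0⟩ := root_descent h3 ((t 0 0 1 + t 0 1 0 + t 1 0 0) / t 0 0 0)
        ((t 0 1 1 + t 1 0 1 + t 1 1 0) / t 0 0 0) (t 1 1 1 / t 0 0 0) (y 0 / y 1) (by
          simp only [map_div₀]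
          field_simp
          linear_combination h0)
      have := (hA' z0 1 (by
        field_simp at hz0
        linear_combination hz0)).2
      exact one_ne_zero this
  · have hA' : ∀ y : Fin 3 → k, cub t y = 0 → y = 0 := fun y h => by
      by_contra hc
      exact hA y hc h
    have h222 : t 2 2 2 ≠ 0 := by
      intro h
      have := hA' ![0, 0, 1] (by rw [cub_fin3]; simp [h])
      have := congrFun this 2
      simp at this
    have h222' : algebraMap k K (t 2 2 2) ≠ 0 := fun h =>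
      h222 ((algebraMap k K).injective (by rw [h, map_zero]))
    set q : Fin 9 → k := ![(t 0 2 2 + t 2 0 2 + t 2 2 0) / t 2 2 2,
      (t 1 2 2 + t 2 1 2 + t 2 2 1) / t 2 2 2,
      (t 0 0 2 + t 0 2 0 + t 2 0 0) / t 2 2 2,
      (t 0 1 2 + t 0 2 1 + t 1 0 2 + t 1 2 0 + t 2 0 1 + t 2 1 0) / t 2 2 2,
      (t 1 1 2 + t 1 2 1 + t 2 1 1) / t 2 2 2,
      t 0 0 0 / t 2 2 2,
      (t 0 0 1 + t 0 1 0 + t 1 0 0) / t 2 2 2,
      (t 0 1 1 + t 1 0 1 + t 1 1 0) / t 2 2 2,
      t 1 1 1 / t 2 2 2] with hq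
    have hPA : PA q := by
      intro x y z hxyz
      have := hA' ![x, y, z] (by
        rw [cub_fin3]
        simp only [pl, hq] at hxyz
        simp only [Matrix.cons_val] at hxyz
        simp only [Matrix.cons_val, Algebra.algebraMap_self, RingHom.id_apply]
        field_simp at hxyz
        linear_combination hxyz)
      exact ⟨by simpa using congrFun this 0, by simpa using congrFun this 1,
        by simpa using congrFun this 2⟩
    have hPK := plane H1 H2 H3 _ k K rfl h3 q hPA
    rw [cub_fin3] at h0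
    obtain ⟨e0, e1, e2⟩ := hPK (y 0) (y 1) (y 2) (by
      simp only [pl, hq, Matrix.cons_val, map_div₀]
      field_simp
      linear_combination h0)
    apply hy
    funext i
    fin_cases i
    · exact e0
    · exact e1
    · exact e2

theorem t_LOW (H1 : S_NRM1) (H2 : S_NRM2) (H3 : S_TOP) : S_LOW := by
  intro k K _ _ _ _ ι _ t hcard h3 hA
  rw [← aniso_equiv (Fintype.equivFin ι)] at hA ⊢
  exact low_fin H1 H2 H3 k K h3 _ hcard _ hA

end Pool.Agent.Y214.CY
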