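import Pool.Agent.Y214.CY.Low
import Pool.Agent.Y214.CY.Loc
import Pool.Agent.Y528.CY.Poly
import Pool.Agent.Y474.CY.Bl
import Pool.Agent.Y759.CY.Orth
import Pool.Agent.Y442.CY.Coef
import Pool.Agent.Y149.CY.Prime
import Pool.Agent.Y339.CY.Low1

/-!
# Coray's local theorem

A cubic form over `ℚ_p` with a nontrivial zero in a finite extension of degree prime to three has a
nontrivial zero in `ℚ_p`.
-/

set_option autoImplicit false

namespace Pool.Agent.Y214.CY

open Module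

theorem loc : S_LOC :=
  t_LOC Pool.Agent.Y528.CY.t_SORT
    (Pool.Agent.Y759.CY.t_ORTH (Pool.Agent.Y474.CY.t_ULT Pool.Agent.Y474.CY.t_BL))
    (Pool.Agent.Y442.CY.t_COEF Pool.Agent.Y474.CY.t_BL
      (Pool.Agent.Y474.CY.t_ULT Pool.Agent.Y474.CY.t_BL))
    Pool.Agent.Y149.CY.t_PRIME Pool.Agent.Y339.CY.Low1.t_CW
    (t_LOW Pool.Agent.Y339.CY.Low1.t_NRM1 Pool.Agent.Y339.CY.Low1.t_NRM2 Pool.Agent.Y339.CY.Low1.t_TOP)

/-- Coray's theorem for forms in `Fin n` variables over `ℚ_p`. -/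
theorem coray_fin (p : ℕ) [Fact p.Prime] (K : Type) [Field K] [Algebra ℚ_[p] K]
    [FiniteDimensional ℚ_[p] K] (h3 : ¬ 3 ∣ finrank ℚ_[p] K) (n : ℕ)
    (f : MvPolynomial (Fin n) ℚ_[p]) (hf : f.IsHomogeneous 3) (x : Fin n → K) (hx : x ≠ 0)
    (h0 : MvPolynomial.aeval x f = 0) :
    ∃ y : Fin n → ℚ_[p], y ≠ 0 ∧ MvPolynomial.aeval y f = 0 := by
  obtain ⟨t, ht⟩ := Pool.Agent.Y528.CY.t_POLY n ℚ_[p] f hf
  by_contra hcon
  push Not at hcon
  have hA : Aniso ℚ_[p] t := by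
    intro y hy h
    exact hcon y hy (by rw [ht]; exact h)
  have := loc p K h3 n t hA x hx
  rw [ht] at h0
  exact this h0

/-- Coray's theorem for integral forms in any finite set of variables. -/
theorem coray (ι : Type*) [Fintype ι] (p : ℕ) [Fact p.Prime] (K : Type) [Field K]
    [Algebra ℚ_[p] K] [FiniteDimensional ℚ_[p] K] (h3 : ¬ 3 ∣ finrank ℚ_[p] K)
    (f : MvPolynomial ι ℤ) (hf : f.IsHomogeneous 3) (x : ι → K) (hx : x ≠ 0)
    (h0 : MvPolynomial.aeval x f = 0) :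
    ∃ y : ι → ℚ_[p], y ≠ 0 ∧ MvPolynomial.aeval y f = 0 := by
  classical
  let e := Fintype.equivFin ι
  let g : MvPolynomial (Fin (Fintype.card ι)) ℚ_[p] :=
    MvPolynomial.rename e (MvPolynomial.map (algebraMap ℤ ℚ_[p]) f)
  have hg : g.IsHomogeneous 3 := (hf.map _).rename_isHomogeneous
  have hev : ∀ (A : Type) [Field A] [Algebra ℚ_[p] A] (z : Fin (Fintype.card ι) → A),
      MvPolynomial.aeval z g = MvPolynomial.aeval (fun i => z (e i)) f := by
    intro A _ _ z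
    simp only [g, MvPolynomial.aeval_rename, MvPolynomial.aeval_map_algebraMap]
    rfl
  obtain ⟨y, hy, hy0⟩ := coray_fin p K h3 _ g hg (fun i => x (e.symm i)) (by
    intro h
    apply hx
    funext i
    have := congrFun h (e i)
    simpa using this) (by
    rw [hev]
    simpa using h0)
  refine ⟨fun i => y (e i), ?_, ?_⟩
  · intro h
    apply hy
    funext i
    have := congrFun h (e.symm i)
    simpa using this
  · rw [← hev]
    exact hy0

/-- Cubic forms over the real numbers. -/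
theorem real_cubic (ι : Type) [Fintype ι] (h : 2 ≤ Fintype.card ι) (f : MvPolynomial ι ℤ)
    (hf : f.IsHomogeneous 3) : ∃ y : ι → ℝ, y ≠ 0 ∧ MvPolynomial.aeval y f = 0 :=
  Pool.Agent.Y339.CY.Low1.t_REAL ι h f hf

end Pool.Agent.Y214.CY
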