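import Mathlib

/-!
# Cubic forms over local fields and points of degree prime to three: statements
-/

set_option autoImplicit false

namespace Pool.Agent.Y214.CY

open Module

/-- The value at `y` of the cubic form with the coefficient tensor `t`. -/
def cub {ι R A : Type} [Fintype ι] [CommRing R] [CommRing A] [Algebra R A]
    (t : ι → ι → ι → R) (y : ι → A) : A :=
  ∑ i, ∑ j, ∑ k, algebraMap R A (t i j k) * y i * y j * y k

/-- The cubic form `t` has no nontrivial zero with coordinates in `A`. -/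
def Aniso {ι R : Type} (A : Type) [Fintype ι] [CommRing R] [CommRing A] [Algebra R A]
    (t : ι → ι → ι → R) : Prop :=
  ∀ y : ι → A, y ≠ 0 → cub t y ≠ 0

/-- Every homogeneous cubic polynomial is given by a tensor. -/
def S_POLY : Prop := ∀ (n : ℕ) (R : Type) [CommRing R] (f : MvPolynomial (Fin n) R),
  f.IsHomogeneous 3 → ∃ t : Fin n → Fin n → Fin n → R,
    ∀ (A : Type) [CommRing A] [Algebra R A] (y : Fin n → A), MvPolynomial.aeval y f = cub t y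

/-- Every cubic form is given by a tensor supported on the sorted triples. -/
def S_SORT : Prop := ∀ (n : ℕ) (R : Type) [CommRing R] (t : Fin n → Fin n → Fin n → R),
  ∃ s : Fin n → Fin n → Fin n → R, (∀ i j k, ¬ (i ≤ j ∧ j ≤ k) → s i j k = 0) ∧
    ∀ (A : Type) [CommRing A] [Algebra R A] (y : Fin n → A), cub s y = cub t y

/-- Coefficients of an anisotropic binary cubic form over `ℚ_p`. -/
def S_BL : Prop := ∀ (p : ℕ) [Fact p.Prime] (A B C D : ℚ_[p]),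
  (∀ s r : ℚ_[p], (s ≠ 0 ∨ r ≠ 0) → A * s ^ 3 + B * s ^ 2 * r + C * s * r ^ 2 + D * r ^ 3 ≠ 0) →
  ‖B‖ ^ 3 ≤ ‖A‖ ^ 2 * ‖D‖ ∧ ‖C‖ ^ 3 ≤ ‖A‖ * ‖D‖ ^ 2

/-- The function `‖f x‖` is ultrametric for an anisotropic cubic form `f` over `ℚ_p`. -/
def S_ULT : Prop := ∀ (p : ℕ) [Fact p.Prime] (n : ℕ) (t : Fin n → Fin n → Fin n → ℚ_[p]),
  Aniso ℚ_[p] t → ∀ x y : Fin n → ℚ_[p],
    ‖cub t (x + y)‖ ≤ max ‖cub t x‖ ‖cub t y‖

/-- Existence of an orthogonal basis with small exponents. -/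
def S_ORTH : Prop := ∀ (p : ℕ) [Fact p.Prime] (n : ℕ) (t : Fin n → Fin n → Fin n → ℚ_[p]),
  Aniso ℚ_[p] t → ∃ e : Fin n → Fin n → ℚ_[p], LinearIndependent ℚ_[p] e ∧
    (∀ (a : Fin n → ℚ_[p]) (j : Fin n),
      ‖a j‖ ^ 3 * ‖cub t (e j)‖ ≤ ‖cub t (∑ i, a i • e i)‖) ∧
    ∀ j, ∃ i : ℕ, i ≤ 2 ∧ ‖cub t (e j)‖ = ((p : ℝ) ^ i)⁻¹

/-- Bounds of the coefficients of a sorted anisotropic form whose standard basis is orthogonal. -/
def S_COEF : Prop := ∀ (p : ℕ) [Fact p.Prime] (n : ℕ) (t : Fin n → Fin n → Fin n → ℚ_[p]),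
  Aniso ℚ_[p] t → (∀ i j k, ¬ (i ≤ j ∧ j ≤ k) → t i j k = 0) →
  (∀ j, ∃ i : ℕ, i ≤ 2 ∧ ‖t j j j‖ = ((p : ℝ) ^ i)⁻¹) →
  ∀ i j k, ‖t i j k‖ ^ 3 ≤ ‖t i i i‖ * ‖t j j j‖ * ‖t k k k‖

/-- A place of a finite extension of `ℚ_p` of degree prime to three whose ramification index and
residue degree are prime to three. -/
def S_PRIME : Prop := ∀ (p : ℕ) [Fact p.Prime] (K : Type) [Field K] [Algebra ℚ_[p] K]
  [FiniteDimensional ℚ_[p] K], ¬ 3 ∣ finrank ℚ_[p] K →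
  ∃ (w : Valuation K (WithZero (Multiplicative ℤ))) (e : ℕ) (κ : Type) (_ : Field κ)
    (_ : Algebra (ZMod p) κ) (_ : FiniteDimensional (ZMod p) κ) (red : w.integer →+* κ),
    ¬ 3 ∣ e ∧ ¬ 3 ∣ finrank (ZMod p) κ ∧
    (∀ x : ℚ_[p], x ≠ 0 → w (algebraMap ℚ_[p] K x) =
      ((Multiplicative.ofAdd (-(e : ℤ) * x.valuation) : Multiplicative ℤ) :
        WithZero (Multiplicative ℤ))) ∧
    (∀ x : w.integer, red x = 0 ↔ w (x : K) < 1) ∧
    (∀ (z : ℤ_[p]) (x : w.integer), (x : K) = algebraMap ℚ_[p] K (z : ℚ_[p]) →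
      red x = algebraMap (ZMod p) κ (PadicInt.toZMod z))

/-- Chevalley's theorem: an anisotropic cubic form over a prime field has at most three
variables. -/
def S_CW : Prop := ∀ (p : ℕ) [Fact p.Prime] (ι : Type) [Fintype ι] (t : ι → ι → ι → ZMod p),
  Aniso (ZMod p) t → Fintype.card ι ≤ 3

/-- Anisotropic cubic forms in at most three variables stay anisotropic over the extensions of
degree prime to three. -/
def S_LOW : Prop := ∀ (k K : Type) [Field k] [Field K] [Algebra k K] [FiniteDimensional k K]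
  (ι : Type) [Fintype ι] (t : ι → ι → ι → k), Fintype.card ι ≤ 3 → ¬ 3 ∣ finrank k K →
  Aniso k t → Aniso K t

/-- The norm of `g0 + g1 z + g2 z²` from the cubic algebra `z³ + a z² + b z + c = 0`. -/
def nrm {R : Type} [CommRing R] (a b c g0 g1 g2 : R) : R :=
  g0 ^ 3 - a * g0 ^ 2 * g1 + (a ^ 2 - 2 * b) * g0 ^ 2 * g2 + b * g0 * g1 ^ 2 +
    (3 * c - a * b) * g0 * g1 * g2 + (b ^ 2 - 2 * a * c) * g0 * g2 ^ 2 - c * g1 ^ 3 +
    a * c * g1 ^ 2 * g2 - b * c * g1 * g2 ^ 2 + c ^ 2 * g2 ^ 3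

/-- The norm vanishes if the element vanishes at a root. -/
def S_NRM1 : Prop := ∀ (K : Type) [Field K] (a b c g0 g1 g2 z : K),
  z ^ 3 + a * z ^ 2 + b * z + c = 0 → g0 + g1 * z + g2 * z ^ 2 = 0 → nrm a b c g0 g1 g2 = 0

/-- Over a field without roots of the cubic the norm vanishes only at zero. -/
def S_NRM2 : Prop := ∀ (K : Type) [Field K] (a b c g0 g1 g2 : K),
  (∀ z : K, z ^ 3 + a * z ^ 2 + b * z + c ≠ 0) → nrm a b c g0 g1 g2 = 0 →
    g0 = 0 ∧ g1 = 0 ∧ g2 = 0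

/-- `p` has degree at most `n` and `c` is its coefficient at `n` (`p = 0` and `c = 0` if `n` is
negative). -/
def T {k : Type} [Field k] (n : ℤ) (p : Polynomial k) (c : k) : Prop :=
  (∃ m : ℕ, n = m ∧ p.natDegree ≤ m ∧ p.coeff m = c) ∨ (n < 0 ∧ p = 0 ∧ c = 0)

/-- Degree and leading coefficient of the norm. -/
def S_TOP : Prop := ∀ (k : Type) [Field k] (a b c g0 g1 g2 : Polynomial k)
  (α β γ c0 c1 c2 : k) (r : ℕ), T 1 a α → T 2 b β → T 3 c γ → T r g0 c0 → T (r - 1) g1 c1 →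
  T (r - 2) g2 c2 → T (3 * r) (nrm a b c g0 g1 g2) (nrm α β γ c0 c1 c2)

/-- Coray's theorem over `ℚ_p` in terms of tensors. -/
def S_LOC : Prop := ∀ (p : ℕ) [Fact p.Prime] (K : Type) [Field K] [Algebra ℚ_[p] K]
  [FiniteDimensional ℚ_[p] K], ¬ 3 ∣ finrank ℚ_[p] K → ∀ (n : ℕ)
  (t : Fin n → Fin n → Fin n → ℚ_[p]), Aniso ℚ_[p] t → Aniso K t

/-- Cubic forms over the real numbers. -/
def S_REAL : Prop := ∀ (ι : Type) [Fintype ι], 2 ≤ Fintype.card ι → ∀ f : MvPolynomial ι ℤ,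
  f.IsHomogeneous 3 → ∃ y : ι → ℝ, y ≠ 0 ∧ MvPolynomial.aeval y f = 0

end Pool.Agent.Y214.CY
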